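import Mathlib
import Pool.Agent.Helper11_Conn.Block

/-!
# Negative correlation for weighted connected spanning subgraphs: complete graphs and complete blocks
-/

namespace Pool.Agent.Results.MP_84f020_co.CompleteBlock

open Classical in
/-- `K G α S` is the sum of `α ^ |F|` over all edge sets `F` with `S ⊆ F ⊆ E(G)` for which the graph
`(V, F)` on the full vertex set is connected. -/
noncomputable def K {V : Type*} [Fintype V] (G : SimpleGraph V) (α : ℝ) (S : Set (Sym2 V)) : ℝ :=
  ∑ F ∈ (Finset.univ : Finset (Finset (Sym2 V))).filter (fun F : Finset (Sym2 V) =>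
    S ⊆ (F : Set (Sym2 V)) ∧ (F : Set (Sym2 V)) ⊆ G.edgeSet ∧
      (SimpleGraph.fromEdgeSet (F : Set (Sym2 V))).Connected), α ^ Finset.card F

/-- `B` is a complete block of `G`: any two distinct vertices of `B` are adjacent, and no two
distinct vertices of `B` are joined by a path of `G` that has no edge inside `B`. -/
def IsCompleteBlock {V : Type*} (G : SimpleGraph V) (B : Set V) : Prop :=
  (∀ u ∈ B, ∀ v ∈ B, u ≠ v → G.Adj u v) ∧
    ∀ u ∈ B, ∀ v ∈ B, (G.deleteEdges {e | ∀ x ∈ e, x ∈ B}).Reachable u v → u = v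

open Classical in
lemma K_eq {V : Type*} [Fintype V] [Nonempty V] (G : SimpleGraph V) (B : Finset V)
    (hB : ∀ u ∈ B, ∀ v ∈ B, u ≠ v → G.Adj u v) (α : ℝ) (S : Finset (Sym2 V)) :
    K G α (S : Set (Sym2 V)) =
      Helper11.Conn.KA (G.edgeSet.toFinset \ Helper11.Conn.EE B) B α S := by
  unfold K Helper11.Conn.KA
  have hE : Helper11.Conn.EE B ∪ (G.edgeSet.toFinset \ Helper11.Conn.EE B) = G.edgeSet.toFinset := by
    rw [Finset.union_sdiff_of_subset]
    intro e
    induction e using Sym2.ind with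
    | _ u v =>
      rw [Helper11.Conn.mem_EE, Set.mem_toFinset, SimpleGraph.mem_edgeSet]
      rintro ⟨h1, h2, h3⟩
      exact hB u h1 v h2 h3
  rw [hE]
  apply Finset.sum_congr _ (fun _ _ => rfl)
  ext F
  simp only [Finset.mem_filter, Finset.mem_univ, true_and, Finset.mem_powerset,
    Finset.coe_subset]
  have hsub : (F : Set (Sym2 V)) ⊆ G.edgeSet ↔ F ⊆ G.edgeSet.toFinset := by
    rw [← Finset.coe_subset, Set.coe_toFinset]
  rw [hsub]
  have hcon : F ⊆ G.edgeSet.toFinset →
      ((SimpleGraph.fromEdgeSet (F : Set (Sym2 V))).Connected ↔ Helper11.Conn.ConAll F) := by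
    intro hF
    have hadj : (SimpleGraph.fromEdgeSet (F : Set (Sym2 V))).Adj = Helper11.Conn.cr F := by
      funext u v
      rw [eq_iff_iff, SimpleGraph.fromEdgeSet_adj]
      unfold Helper11.Conn.cr
      constructor
      · rintro ⟨h, _⟩; exact h
      · intro h
        refine ⟨h, ?_⟩
        have := hF h
        rw [Set.mem_toFinset, SimpleGraph.mem_edgeSet] at this
        exact this.ne
    rw [SimpleGraph.connected_iff]
    unfold SimpleGraph.Preconnected Helper11.Conn.ConAll
    simp only [SimpleGraph.reachable_iff_reflTransGen, hadj]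
    constructor
    · rintro ⟨h, _⟩; exact h
    · intro h; exact ⟨h, inferInstance⟩
  constructor
  · rintro ⟨h1, h2, h3⟩
    exact ⟨h2, (hcon h2).1 h3, h1⟩
  · rintro ⟨h1, h2, h3⟩
    exact ⟨h3, h1, (hcon h1).2 h2⟩

/-- **Negative correlation for edges of complete blocks.**  Let `G` be a finite graph, `B` a
complete block of `G` (for instance `G` a complete graph and `B` its whole vertex set), `e` an
edge inside `B`, `f ≠ e` any other edge of `G` and `α > 0`.  Then
`K_α(∅) K_α(e,f) ≤ K_α(e) K_α(f)`. -/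
theorem result {V : Type*} [Fintype V] (G : SimpleGraph V) (B : Set V) (hB : IsCompleteBlock G B)
    (α : ℝ) (hα : 0 < α) (e f : Sym2 V) (he : e ∈ G.edgeSet) (heB : ∀ x ∈ e, x ∈ B)
    (hf : f ∈ G.edgeSet) (hef : e ≠ f) :
    K G α ∅ * K G α {e, f} ≤ K G α {e} * K G α {f} := by
  classical
  obtain ⟨hB1, hB2⟩ := hB
  set B' : Finset V := B.toFinset with hB'
  have memB : ∀ x, x ∈ B' ↔ x ∈ B := fun x => Set.mem_toFinset
  have hne : B'.Nonempty := by
    induction e using Sym2.ind with
    | _ u v => exact ⟨u, (memB u).2 (heB u (Sym2.mem_mk_left u v))⟩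
  have : Nonempty V := ⟨hne.choose⟩
  have hB1' : ∀ u ∈ B', ∀ v ∈ B', u ≠ v → G.Adj u v := fun u hu v hv =>
    hB1 u ((memB u).1 hu) v ((memB v).1 hv)
  set E2 := G.edgeSet.toFinset \ Helper11.Conn.EE B' with hE2
  have heE : e ∈ Helper11.Conn.EE B' := by
    revert he heB
    induction e using Sym2.ind with
    | _ u v =>
      intro he heB
      rw [Helper11.Conn.mem_EE]
      exact ⟨(memB u).2 (heB u (Sym2.mem_mk_left u v)), (memB v).2 (heB v (Sym2.mem_mk_right u v)),
        (G.mem_edgeSet.1 he).ne⟩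
  have hfE : f ∈ Helper11.Conn.EE B' ∪ E2 := by
    by_cases h : f ∈ Helper11.Conn.EE B'
    · exact Finset.mem_union_left _ h
    · exact Finset.mem_union_right _ (Finset.mem_sdiff.2 ⟨Set.mem_toFinset.2 hf, h⟩)
  have hblock : ∀ u ∈ B', ∀ v ∈ B', Relation.ReflTransGen (Helper11.Conn.cr E2) u v → u = v := by
    intro u hu v hv h
    apply hB2 u ((memB u).1 hu) v ((memB v).1 hv)
    rw [SimpleGraph.reachable_iff_reflTransGen]
    refine Relation.ReflTransGen.mono ?_ _ _ h
    intro x y hxy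
    have hm : s(x, y) ∈ E2 := hxy
    rw [hE2, Finset.mem_sdiff, Set.mem_toFinset, SimpleGraph.mem_edgeSet] at hm
    rw [SimpleGraph.deleteEdges_adj]
    refine ⟨hm.1, ?_⟩
    intro hin
    apply hm.2
    rw [Helper11.Conn.mem_EE]
    exact ⟨(memB x).2 (hin x (Sym2.mem_mk_left x y)), (memB y).2 (hin y (Sym2.mem_mk_right x y)),
      hm.1.ne⟩
  have key := Helper11.Conn.KA_ineq E2 B' α hα hne Finset.disjoint_sdiff hblock e f heE hfE hef
  have k0 := K_eq G B' hB1' α ∅
  have ke := K_eq G B' hB1' α {e}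
  have kf := K_eq G B' hB1' α {f}
  have kef := K_eq G B' hB1' α {e, f}
  rw [Finset.coe_empty] at k0
  rw [Finset.coe_singleton] at ke kf
  rw [Finset.coe_pair] at kef
  rw [k0, ke, kf, kef]
  exact key

/-- The case of a complete graph. -/
theorem complete_graph {V : Type*} [Fintype V] (α : ℝ) (hα : 0 < α) (e f : Sym2 V)
    (he : e ∈ (⊤ : SimpleGraph V).edgeSet) (hf : f ∈ (⊤ : SimpleGraph V).edgeSet) (hef : e ≠ f) :
    K (⊤ : SimpleGraph V) α ∅ * K ⊤ α {e, f} ≤ K (⊤ : SimpleGraph V) α {e} * K ⊤ α {f} := by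
  apply result ⊤ Set.univ ?_ α hα e f he (fun _ _ => Set.mem_univ _) hf hef
  refine ⟨fun u _ v _ h => h, ?_⟩
  intro u _ v _ h
  rw [SimpleGraph.reachable_iff_reflTransGen] at h
  induction h with
  | refl => rfl
  | tail _ h _ =>
    rw [SimpleGraph.deleteEdges_adj] at h
    exact absurd (fun _ _ => Set.mem_univ _) h.2

end Pool.Agent.Results.MP_84f020_co.CompleteBlock
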