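import Mathlib
import Pool.Agent.Helper40_NC.Uni

/-!
# Negative correlation for weighted connected spanning subgraphs fails, for every weight
-/

namespace Pool.Agent.Results.MP_84f020_co.PositiveCorrelation

open Classical in
/-- `K G α S` is the sum of `α ^ |F|` over all edge sets `F` with `S ⊆ F ⊆ E(G)` for which the graph
`(V, F)` on the full vertex set is connected. -/
noncomputable def K {V : Type} [Fintype V] (G : SimpleGraph V) (α : ℝ) (S : Set (Sym2 V)) : ℝ :=
  ∑ F ∈ (Finset.univ : Finset (Finset (Sym2 V))).filter (fun F : Finset (Sym2 V) =>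
    S ⊆ (F : Set (Sym2 V)) ∧ (F : Set (Sym2 V)) ⊆ G.edgeSet ∧
      (SimpleGraph.fromEdgeSet (F : Set (Sym2 V))).Connected), α ^ Finset.card F

open Helper43NC in
theorem K_eq {V : Type} [Fintype V] (E : Finset (Sym2 V)) (hE : ∀ g ∈ E, ¬ g.IsDiag) (α : ℝ)
    (S : Finset (Sym2 V)) :
    K (SimpleGraph.fromEdgeSet (E : Set (Sym2 V))) α (S : Set (Sym2 V)) =
      KW E (fun _ => α) S := by
  classical
  have hG : (SimpleGraph.fromEdgeSet (E : Set (Sym2 V))).edgeSet = E := by
    rw [SimpleGraph.edgeSet_fromEdgeSet]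
    ext g
    simp only [Set.mem_sdiff, Finset.mem_coe]
    exact ⟨fun h => h.1, fun h => ⟨h, hE g h⟩⟩
  have h0 : ∑ F ∈ E.powerset with ¬ (S ⊆ F ∧ Conn F),
      wt (S ⊆ F ∧ Conn F) (∏ _g ∈ F, α) = 0 :=
    Finset.sum_eq_zero (fun F hF => wt_neg (Finset.mem_filter.1 hF).2 _)
  unfold K KW
  rw [hG, ← Finset.sum_filter_add_sum_filter_not E.powerset (fun F => S ⊆ F ∧ Conn F), h0, add_zero]
  apply Finset.sum_congr
  · ext F
    simp only [Finset.mem_filter, Finset.mem_univ, true_and, Finset.mem_powerset,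
      Finset.coe_subset]
    exact ⟨fun h => ⟨h.2.1, h.1, h.2.2⟩, fun h => ⟨h.2.1, h.1, h.2.2⟩⟩
  · intro F hF
    rw [wt_pos (Finset.mem_filter.1 hF).2, Finset.prod_const]

/-- For every real `α > 0` there are a finite simple graph `G` and two distinct edges `e`, `f` of `G`
with `K_α(e) K_α(f) < K_α(∅) K_α(e, f)`: the two edges are strictly positively correlated in a
random connected spanning subgraph of `G` with weight `α` for each edge. -/
theorem result : ∀ α : ℝ, 0 < α → ∃ (V : Type) (_ : Fintype V) (G : SimpleGraph V)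
    (e f : Sym2 V), e ∈ G.edgeSet ∧ f ∈ G.edgeSet ∧ e ≠ f ∧
      K G α {e} * K G α {f} < K G α ∅ * K G α {e, f} := by
  intro α hα
  obtain ⟨V, h1, h2, h3, E, e, f, hd, he, hf, hef, hV⟩ := Helper40NC.uni α hα
  have hG : (SimpleGraph.fromEdgeSet (E : Set (Sym2 V))).edgeSet = E := by
    rw [SimpleGraph.edgeSet_fromEdgeSet]
    ext g
    simp only [Set.mem_sdiff, Finset.mem_coe]
    exact ⟨fun h => h.1, fun h => ⟨h, hd g h⟩⟩
  refine ⟨V, h1, SimpleGraph.fromEdgeSet (E : Set (Sym2 V)), e, f, ?_, ?_, hef, ?_⟩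
  · rw [hG]; exact he
  · rw [hG]; exact hf
  · have k0 := K_eq E hd α ∅
    have ke := K_eq E hd α {e}
    have kf := K_eq E hd α {f}
    have kef := K_eq E hd α {e, f}
    rw [Finset.coe_empty] at k0
    rw [Finset.coe_singleton] at ke kf
    rw [Finset.coe_insert, Finset.coe_singleton] at kef
    rw [k0, ke, kf, kef]
    exact hV

end Pool.Agent.Results.MP_84f020_co.PositiveCorrelation
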